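import Mathlib

/-!
# Cusps with an irrational exponent on which the Markov inequality fails

For irrational `σ > 1` and an integer `p > σ` let `X` be the set of all `(x, y)` with
`0 ≤ x ≤ 1` and `x ^ σ ≤ y ≤ x ^ σ + x ^ p`.  We show that for suitable `(σ, p)` the set `X` does
not satisfy the Markov inequality; in fact, for every integer `p ≥ 2` this happens for all `σ`
in a comeagre subset of the interval `(1, p)`.

Idea.  For a rational exponent `a / b` in lowest terms the curve `(t ^ b, t ^ a)` is considered.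
Every integer `m ≥ c = a * b` is of the form `i * b + j * a`, so the binomial tail
`∑_{k ≥ c} C(N, k) t ^ k (1 - t) ^ (N - k)` is the restriction of a polynomial in `x, y`.  One
minus that polynomial is called `R`; it is one at the origin, vanishes at `(1, 1)`, is bounded by
one in a thin neighbourhood of the arc `0 ≤ t ≤ 1` and is extremely small for `1 / 2 ≤ t ≤ 1`.
The products of the rescaled polynomials `R(2 ^ (b k) x, 2 ^ (a k) y) ^ (16 ^ (K - k))`, `k ≤ K`,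
multiplied by a power of `1 - x`, have degree `O(16 ^ K)`, are bounded by one on the cusp, equal
one at the origin and vanish at the point of the cusp with `x = 2 ^ (- b K)`.  So the Markov
exponent of the cusp with exponent `a / b` is at least `b / 4`, and a Baire category argument
in the exponent `σ` finishes the proof.
-/

namespace Pool.Agent.Results.MP_bd9c87_an.MarkovCuspFails

open Finset

/-- The cusp with exponent `σ` and width exponent `p`:
the set of points `(x, y)` with `0 ≤ x ≤ 1` and `x ^ σ ≤ y ≤ x ^ σ + x ^ p`. -/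
def cusp (σ : ℝ) (p : ℕ) : Set (ℝ × ℝ) :=
  {z | 0 ≤ z.1 ∧ z.1 ≤ 1 ∧ z.1 ^ σ ≤ z.2 ∧ z.2 ≤ z.1 ^ σ + z.1 ^ p}

/-- The value `P(x, y)` of a real polynomial in two variables at the point `z = (x, y)`. -/
noncomputable def evalAt (P : MvPolynomial (Fin 2) ℝ) (z : ℝ × ℝ) : ℝ :=
  MvPolynomial.eval ![z.1, z.2] P

/-- The Euclidean length of the gradient of `P` at the point `z`. -/
noncomputable def gradNorm (P : MvPolynomial (Fin 2) ℝ) (z : ℝ × ℝ) : ℝ :=
  Real.sqrt ((evalAt (MvPolynomial.pderiv 0 P) z) ^ 2 + (evalAt (MvPolynomial.pderiv 1 P) z) ^ 2)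

/-- The supremum of `|f|` over the set `E` (used for compact `E` and continuous `f` only). -/
noncomputable def supOn (E : Set (ℝ × ℝ)) (f : ℝ × ℝ → ℝ) : ℝ :=
  sSup ((fun z => |f z|) '' E)

/-- The Markov inequality on `E`: there are `C, r > 0` such that the gradient of every real
polynomial `P` of degree at least one has sup norm on `E` at most
`C * (deg P) ^ r` times the sup norm of `P` on `E`. -/
def MarkovInequality (E : Set (ℝ × ℝ)) : Prop :=
  ∃ C r : ℝ, 0 < C ∧ 0 < r ∧ ∀ P : MvPolynomial (Fin 2) ℝ, 1 ≤ P.totalDegree →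
    supOn E (gradNorm P) ≤ C * (P.totalDegree : ℝ) ^ r * supOn E (evalAt P)

/-! ## The building block -/

noncomputable def cf (c M k l : ℕ) : ℝ :=
  ((c + M).choose (c + k) : ℝ) * ((M - k).choose l : ℝ) * (-1) ^ l

noncomputable def W (c M : ℕ) (j : ℕ → ℕ) (τ v : ℝ) : ℝ :=
  ∑ k ∈ range (M + 1), ∑ l ∈ range (M - k + 1),
    cf c M k l * τ ^ (k + l) * (1 + v) ^ (j (c + k + l))

noncomputable def Rt (c M : ℕ) (j : ℕ → ℕ) (τ v : ℝ) : ℝ := 1 - τ ^ c * W c M j τ v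

lemma W_zero (c M : ℕ) (j : ℕ → ℕ) (τ : ℝ) :
    W c M j τ 0 = ∑ k ∈ range (M + 1), ((c + M).choose (c + k) : ℝ) * τ ^ k * (1 - τ) ^ (M - k) := by
  unfold W cf
  apply Finset.sum_congr rfl
  intro k hk
  have : (1 - τ) ^ (M - k) =
      ∑ l ∈ range (M - k + 1), (-τ) ^ l * 1 ^ (M - k - l) * ((M - k).choose l : ℝ) := by
    rw [← add_pow]; ring
  rw [this, Finset.mul_sum]
  apply Finset.sum_congr rfl
  intro l hl
  simp only [add_zero, one_pow, mul_one, neg_pow τ l, pow_add]; ring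

/-- lower binomial sum -/
noncomputable def lowS (c M : ℕ) (τ : ℝ) : ℝ :=
  ∑ k ∈ range c, τ ^ k * (1 - τ) ^ (c + M - k) * ((c + M).choose k : ℝ)

lemma Rt_zero (c M : ℕ) (j : ℕ → ℕ) (τ : ℝ) : Rt c M j τ 0 = lowS c M τ := by
  have h1 : (1 : ℝ) = ∑ m ∈ range (c + M + 1), τ ^ m * (1 - τ) ^ (c + M - m) * ((c + M).choose m : ℝ) := by
    rw [← add_pow]; simp
  rw [Rt, W_zero, lowS]
  have h2 : range (c + M + 1) = range (c + (M + 1)) := by rw [add_assoc]
  rw [h2, Finset.sum_range_add] at h1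
  have h3 : τ ^ c * ∑ k ∈ range (M + 1), ((c + M).choose (c + k) : ℝ) * τ ^ k * (1 - τ) ^ (M - k)
      = ∑ x ∈ range (M + 1), τ ^ (c + x) * (1 - τ) ^ (c + M - (c + x)) * ((c + M).choose (c + x) : ℝ) := by
    rw [Finset.mul_sum]
    apply Finset.sum_congr rfl
    intro k hk
    rw [Nat.add_sub_add_left, pow_add]; ring
  rw [h3]; linarith

lemma lowS_nonneg (c M : ℕ) {τ : ℝ} (h0 : 0 ≤ τ) (h1 : τ ≤ 1) : 0 ≤ lowS c M τ := by
  unfold lowS
  have : 0 ≤ 1 - τ := by linarith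
  positivity

lemma lowS_one (c M : ℕ) (hM : 1 ≤ M) : lowS c M 1 = 0 := by
  unfold lowS
  apply Finset.sum_eq_zero
  intro k hk
  rw [mem_range] at hk
  have : c + M - k ≠ 0 := by omega
  simp [this]

lemma W_zero_pos (c M : ℕ) (j : ℕ → ℕ) {τ : ℝ} (h0 : 0 ≤ τ) (h1 : τ ≤ 1) : 0 < W c M j τ 0 := by
  rw [W_zero]
  have h1' : 0 ≤ 1 - τ := by linarith
  rcases eq_or_lt_of_le h1 with h | h
  · subst h
    apply Finset.sum_pos'
    · intro k hk
      positivity
    · refine ⟨M, by simp, ?_⟩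
      simp
  · apply Finset.sum_pos'
    · intro k hk
      positivity
    · refine ⟨0, by simp, ?_⟩
      have : 0 < 1 - τ := by linarith
      have h2 : 0 < (c + M).choose (c + 0) := Nat.choose_pos (by omega)
      positivity

lemma lowS_le (c M : ℕ) {τ : ℝ} (h0 : 1 / 2 ≤ τ) (h1 : τ ≤ 1) :
    lowS c M τ ≤ c * (c + M : ℝ) ^ c * (1 / 2) ^ M := by
  unfold lowS
  have hb : ∀ k ∈ range c, τ ^ k * (1 - τ) ^ (c + M - k) * ((c + M).choose k : ℝ)
      ≤ (c + M : ℝ) ^ c * (1 / 2) ^ M := by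
    intro k hk
    rw [mem_range] at hk
    have e1 : τ ^ k ≤ 1 := pow_le_one₀ (by linarith) h1
    have e2 : (1 - τ) ^ (c + M - k) ≤ (1 / 2) ^ M := by
      calc (1 - τ) ^ (c + M - k) ≤ (1 / 2) ^ (c + M - k) :=
            pow_le_pow_left₀ (by linarith) (by linarith) _
        _ ≤ (1 / 2) ^ M := pow_le_pow_of_le_one (by norm_num) (by norm_num) (by omega)
    have e3 : ((c + M).choose k : ℝ) ≤ (c + M : ℝ) ^ c := by
      calc ((c + M).choose k : ℝ) ≤ ((c + M : ℕ) : ℝ) ^ k := by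
            exact_mod_cast Nat.choose_le_pow _ _
        _ ≤ ((c + M : ℕ) : ℝ) ^ c := by
            apply pow_le_pow_right₀ _ hk.le
            have : 1 ≤ c + M := by omega
            exact_mod_cast this
        _ = (c + M : ℝ) ^ c := by push_cast; ring
    have p1 : 0 ≤ (1 - τ) ^ (c + M - k) := pow_nonneg (by linarith) _
    have p0 : 0 ≤ τ ^ k := pow_nonneg (by linarith) _
    calc τ ^ k * (1 - τ) ^ (c + M - k) * ((c + M).choose k : ℝ)
        ≤ 1 * (1 / 2) ^ M * (c + M : ℝ) ^ c := by gcongr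
      _ = _ := by ring
  calc _ ≤ ∑ k ∈ range c, (c + M : ℝ) ^ c * (1 / 2) ^ M := Finset.sum_le_sum hb
    _ = _ := by simp; ring

lemma continuous_W (c M : ℕ) (j : ℕ → ℕ) : Continuous (fun z : ℝ × ℝ => W c M j z.1 z.2) := by
  unfold W
  fun_prop

lemma continuous_Rt (c M : ℕ) (j : ℕ → ℕ) : Continuous (fun z : ℝ × ℝ => Rt c M j z.1 z.2) := by
  unfold Rt
  have := continuous_W c M j
  fun_prop

/-- growth bound -/
lemma Rt_growth (c M : ℕ) (j : ℕ → ℕ) (B : ℝ) {τ v : ℝ} (hτ : 0 ≤ τ) (hv : 0 ≤ v)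
    (hB : ∀ m ≤ c + M, (1 + v) ^ (j m) ≤ B) :
    |Rt c M j τ v| ≤ 1 + B * (1 + 2 * τ) ^ (c + M) := by
  have hB0 : 0 ≤ B := le_trans (by positivity) (hB 0 (by omega))
  have hW : |τ ^ c * W c M j τ v| ≤ B * (1 + 2 * τ) ^ (c + M) := by
    unfold W
    rw [Finset.mul_sum]
    calc |∑ k ∈ range (M + 1), τ ^ c * ∑ l ∈ range (M - k + 1),
            cf c M k l * τ ^ (k + l) * (1 + v) ^ (j (c + k + l))|
        ≤ ∑ k ∈ range (M + 1), |τ ^ c * ∑ l ∈ range (M - k + 1),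
            cf c M k l * τ ^ (k + l) * (1 + v) ^ (j (c + k + l))| := Finset.abs_sum_le_sum_abs _ _
      _ ≤ ∑ k ∈ range (M + 1), B * (τ ^ (c + k) * (1 + τ) ^ (M - k) * ((c + M).choose (c + k) : ℝ)) := by
          apply Finset.sum_le_sum
          intro k hk
          rw [mem_range] at hk
          rw [abs_mul, abs_of_nonneg (pow_nonneg hτ c)]
          have e : (1 + τ) ^ (M - k) = ∑ l ∈ range (M - k + 1), τ ^ l * 1 ^ (M - k - l) * ((M - k).choose l : ℝ) := by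
            rw [← add_pow]; ring
          rw [e]
          calc τ ^ c * |∑ l ∈ range (M - k + 1), cf c M k l * τ ^ (k + l) * (1 + v) ^ (j (c + k + l))|
              ≤ τ ^ c * ∑ l ∈ range (M - k + 1), |cf c M k l * τ ^ (k + l) * (1 + v) ^ (j (c + k + l))| := by
                gcongr; exact Finset.abs_sum_le_sum_abs _ _
            _ ≤ τ ^ c * ∑ l ∈ range (M - k + 1), ((c + M).choose (c + k) : ℝ) * ((M - k).choose l : ℝ) * τ ^ (k + l) * B := by
                gcongr with l hl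
                rw [mem_range] at hl
                rw [abs_mul, abs_mul, cf, abs_mul, abs_mul, abs_pow, abs_neg, abs_one, one_pow, mul_one,
                  Nat.abs_cast, Nat.abs_cast, abs_of_nonneg (pow_nonneg hτ _),
                  abs_of_nonneg (by positivity : 0 ≤ (1 + v) ^ (j (c + k + l)))]
                gcongr
                exact hB _ (by omega)
            _ = _ := by
                rw [Finset.mul_sum, Finset.mul_sum, Finset.sum_mul, Finset.mul_sum]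
                apply Finset.sum_congr rfl
                intro l hl
                rw [pow_add, pow_add]; simp; ring
      _ ≤ B * ∑ m ∈ range (c + M + 1), τ ^ m * (1 + τ) ^ (c + M - m) * ((c + M).choose m : ℝ) := by
          rw [← Finset.mul_sum]
          gcongr
          have h2 : ∑ m ∈ range (c + M + 1), τ ^ m * (1 + τ) ^ (c + M - m) * ((c + M).choose m : ℝ)
              = ∑ m ∈ range c, τ ^ m * (1 + τ) ^ (c + M - m) * ((c + M).choose m : ℝ)
                + ∑ x ∈ range (M + 1), τ ^ (c + x) * (1 + τ) ^ (c + M - (c + x)) * ((c + M).choose (c + x) : ℝ) := by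
            rw [add_assoc, Finset.sum_range_add]
          rw [h2]
          have : 0 ≤ ∑ x ∈ range c, τ ^ x * (1 + τ) ^ (c + M - x) * ((c + M).choose x : ℝ) := by
            positivity
          have h3 : ∑ k ∈ range (M + 1), τ ^ (c + k) * (1 + τ) ^ (M - k) * ((c + M).choose (c + k) : ℝ)
             = ∑ x ∈ range (M + 1), τ ^ (c + x) * (1 + τ) ^ (c + M - (c + x)) * ((c + M).choose (c + x) : ℝ) := by
            apply Finset.sum_congr rfl
            intro k hk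
            rw [Nat.add_sub_add_left]
          rw [h3]; linarith
      _ = _ := by
          rw [← add_pow]; ring
  calc |Rt c M j τ v| ≤ |1| + |τ ^ c * W c M j τ v| := by
        unfold Rt; exact abs_sub _ _
    _ ≤ _ := by rw [abs_one]; linarith


noncomputable def QQ (c M : ℕ) (j : ℕ → ℕ) (v : ℝ) : ℕ → ℝ → ℝ
  | 0, τ => Rt c M j τ v
  | K + 1, τ => (Rt c M j τ v) ^ (16 ^ (K + 1)) * QQ c M j v K (2 * τ)

lemma QQ_growth (c M : ℕ) (j : ℕ → ℕ) (v : ℝ) (E : ℝ) (hE : 2 ≤ E) (N : ℕ)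
    (h : ∀ τ, 0 ≤ τ → |Rt c M j τ v| ≤ (E * (1 + τ)) ^ N) :
    ∀ K τ, 0 ≤ τ → |QQ c M j v K τ| ≤ (E * (1 + τ)) ^ (2 * N * 16 ^ K) := by
  intro K
  induction K with
  | zero =>
    intro τ hτ
    have h1 : 1 ≤ E * (1 + τ) := by nlinarith
    calc |QQ c M j v 0 τ| ≤ (E * (1 + τ)) ^ N := h τ hτ
      _ ≤ _ := pow_le_pow_right₀ h1 (by simp; omega)
  | succ K ih =>
    intro τ hτ
    have h1 : 1 ≤ E * (1 + τ) := by nlinarith
    have h2 : E * (1 + 2 * τ) ≤ (E * (1 + τ)) ^ 2 := by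
      have : E * (1 + 2 * τ) ≤ E * (2 * (1 + τ)) := by gcongr; linarith
      have h3 : E * (2 * (1 + τ)) ≤ E * (E * (1 + τ)) := by gcongr
      have h4 : E * (E * (1 + τ)) ≤ E * (E * (1 + τ)) * (1 + τ) := by
        apply le_mul_of_one_le_right
        · positivity
        · linarith
      nlinarith
    have h0 : 0 ≤ E * (1 + 2 * τ) := by positivity
    rw [QQ, abs_mul, abs_pow]
    calc |Rt c M j τ v| ^ (16 ^ (K + 1)) * |QQ c M j v K (2 * τ)|
        ≤ ((E * (1 + τ)) ^ N) ^ (16 ^ (K + 1)) * (E * (1 + 2 * τ)) ^ (2 * N * 16 ^ K) := by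
          gcongr
          · exact h τ hτ
          · exact ih (2 * τ) (by linarith)
      _ ≤ ((E * (1 + τ)) ^ N) ^ (16 ^ (K + 1)) * ((E * (1 + τ)) ^ 2) ^ (2 * N * 16 ^ K) := by
          gcongr
      _ = (E * (1 + τ)) ^ (N * 16 ^ (K + 1) + 2 * (2 * N * 16 ^ K)) := by
          rw [← pow_mul, ← pow_mul, ← pow_add]
      _ ≤ _ := by
          apply pow_le_pow_right₀ h1
          rw [pow_succ]
          nlinarith [Nat.zero_le (N * 16 ^ K)]

lemma QQ_le_one (c M : ℕ) (j : ℕ → ℕ) (v : ℝ) (N : ℕ)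
    (h : ∀ τ, 0 ≤ τ → |Rt c M j τ v| ≤ (4 * (1 + τ)) ^ N)
    (h1 : ∀ τ, 0 ≤ τ → τ ≤ 1 → |Rt c M j τ v| ≤ 1)
    (h2 : ∀ τ, 1 / 2 ≤ τ → τ ≤ 1 → |Rt c M j τ v| ^ 16 * 144 ^ N ≤ 1) :
    ∀ K τ, 0 ≤ τ → τ ≤ 1 → |QQ c M j v K τ| ≤ 1 := by
  intro K
  induction K with
  | zero =>
    intro τ h0 h3
    exact h1 τ h0 h3
  | succ K ih =>
    intro τ h0 h3
    rw [QQ, abs_mul, abs_pow]
    rcases le_total τ (1 / 2) with h4 | h4
    · have e1 : |Rt c M j τ v| ^ (16 ^ (K + 1)) ≤ 1 := pow_le_one₀ (abs_nonneg _) (h1 τ h0 h3)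
      have e2 := ih (2 * τ) (by linarith) (by linarith)
      calc _ ≤ (1 : ℝ) * 1 := by gcongr
        _ = 1 := by ring
    · have e2 := QQ_growth c M j v 4 (by norm_num) N h K (2 * τ) (by linarith)
      have e3 : 4 * (1 + 2 * τ) ≤ 12 := by linarith
      calc |Rt c M j τ v| ^ (16 ^ (K + 1)) * |QQ c M j v K (2 * τ)|
          ≤ (|Rt c M j τ v| ^ 16) ^ (16 ^ K) * 12 ^ (2 * N * 16 ^ K) := by
            rw [← pow_mul, pow_succ, mul_comm (16 ^ K) 16]
            gcongr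
            calc _ ≤ _ := e2
              _ ≤ _ := by gcongr
        _ = (|Rt c M j τ v| ^ 16 * 144 ^ N) ^ (16 ^ K) := by
            rw [mul_pow, pow_mul, pow_mul]; norm_num
        _ ≤ 1 := pow_le_one₀ (by positivity) (h2 τ h4 h3)

lemma QQ_end (c M : ℕ) (j : ℕ → ℕ) (hM : 1 ≤ M) :
    ∀ K, QQ c M j 0 K (1 / 2 ^ K) = 0 := by
  intro K
  induction K with
  | zero =>
    simp [QQ, Rt_zero, lowS_one c M hM]
  | succ K ih =>
    rw [QQ]
    have : (2 : ℝ) * (1 / 2 ^ (K + 1)) = 1 / 2 ^ K := by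
      rw [pow_succ]; field_simp
    rw [this, ih, mul_zero]

lemma exists_M (c : ℕ) : ∃ M : ℕ, 1 ≤ M ∧ 2 ≤ c + M ∧
    (c * (c + M : ℝ) ^ c * (1 / 2) ^ M) ^ 16 * 144 ^ (c + M) < 1 := by
  have h1 : Filter.Tendsto (fun n : ℕ => (n : ℝ) ^ (16 * c) * (9 / 4096 : ℝ) ^ n) Filter.atTop (nhds 0) :=
    tendsto_pow_const_mul_const_pow_of_abs_lt_one (16 * c) (by rw [abs_of_nonneg] <;> norm_num)
  have h2 : Filter.Tendsto (fun n : ℕ => ((c : ℝ) * 2 ^ c) ^ 16 * ((n : ℝ) ^ (16 * c) * (9 / 4096 : ℝ) ^ n)) Filter.atTop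
      (nhds (((c : ℝ) * 2 ^ c) ^ 16 * 0)) := h1.const_mul _
  rw [mul_zero] at h2
  have h3 : ∀ᶠ n : ℕ in Filter.atTop, ((c : ℝ) * 2 ^ c) ^ 16 * ((n : ℝ) ^ (16 * c) * (9 / 4096 : ℝ) ^ n) < 1 :=
    h2.eventually (gt_mem_nhds one_pos)
  obtain ⟨n, hn1, hn2⟩ := (h3.and (Filter.eventually_ge_atTop (c + 2))).exists
  obtain ⟨M, rfl⟩ := Nat.exists_eq_add_of_le (show c ≤ n by omega)
  refine ⟨M, by omega, by omega, ?_⟩
  refine lt_of_le_of_lt (le_of_eq ?_) hn1
  have e1 : (144 : ℝ) ^ (c + M) = (2 ^ 16) ^ (c + M) * ((9 / 4096 : ℝ)) ^ (c + M) := by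
    rw [← mul_pow]; norm_num
  have e2 : ((1 / 2 : ℝ) ^ M) ^ 16 * (2 ^ 16) ^ M = 1 := by
    rw [← pow_mul, mul_comm M 16, pow_mul, ← mul_pow]; norm_num
  rw [e1, mul_pow, mul_pow, pow_add (2 ^ 16 : ℝ) c M]
  push_cast
  calc (c : ℝ) ^ 16 * ((c + M : ℝ) ^ c) ^ 16 * ((1 / 2) ^ M) ^ 16 *
      ((2 ^ 16) ^ c * (2 ^ 16) ^ M * (9 / 4096) ^ (c + M))
      = (c : ℝ) ^ 16 * ((c + M : ℝ) ^ c) ^ 16 *
      ((2 ^ 16) ^ c * (9 / 4096) ^ (c + M)) * (((1 / 2) ^ M) ^ 16 * (2 ^ 16) ^ M) := by ring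
    _ = (c : ℝ) ^ 16 * ((c + M : ℝ) ^ c) ^ 16 *
      ((2 ^ 16) ^ c * (9 / 4096) ^ (c + M)) := by rw [e2, mul_one]
    _ = ((c : ℝ) * 2 ^ c) ^ 16 * ((c + M : ℝ) ^ (16 * c) * (9 / 4096) ^ (c + M)) := by
      rw [mul_comm 16 c, pow_mul (c + M : ℝ) c 16, mul_pow, ← pow_mul 2 c 16, mul_comm c 16, pow_mul 2 16 c]
      ring

/-- The good neighbourhood of the curve. -/
lemma exists_delta (c M : ℕ) (j : ℕ → ℕ) (hN : 2 ≤ c + M)
    (hsmall : (c * (c + M : ℝ) ^ c * (1 / 2) ^ M) ^ 16 * 144 ^ (c + M) < 1) :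
    ∃ δ : ℝ, 0 < δ ∧ δ ≤ 1 ∧ ∀ v, 0 ≤ v → v ≤ δ →
      (∀ τ, 0 ≤ τ → |Rt c M j τ v| ≤ (4 * (1 + τ)) ^ (c + M)) ∧
      (∀ τ, 0 ≤ τ → τ ≤ 1 → |Rt c M j τ v| ≤ 1) ∧
      (∀ τ, 1 / 2 ≤ τ → τ ≤ 1 → |Rt c M j τ v| ^ 16 * 144 ^ (c + M) ≤ 1) := by
  have hK : IsCompact (Set.Icc (0 : ℝ) 1) := isCompact_Icc
  have hK2 : IsCompact (Set.Icc (1 / 2 : ℝ) 1) := isCompact_Icc
  have cW : Continuous (fun z : ℝ × ℝ => W c M j z.2 z.1) :=
    (continuous_W c M j).comp continuous_swap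
  have cR : Continuous (fun z : ℝ × ℝ => Rt c M j z.2 z.1) :=
    (continuous_Rt c M j).comp continuous_swap
  have A1 : ∀ᶠ v in nhds (0 : ℝ), ∀ τ ∈ Set.Icc (0 : ℝ) 1, 0 < W c M j τ v := by
    apply hK.eventually_forall_of_forall_eventually
    intro τ hτ
    exact cW.continuousAt.eventually (lt_mem_nhds (W_zero_pos c M j hτ.1 hτ.2))
  have A2 : ∀ᶠ v in nhds (0 : ℝ), ∀ τ ∈ Set.Icc (0 : ℝ) 1, -1 < Rt c M j τ v := by
    apply hK.eventually_forall_of_forall_eventually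
    intro τ hτ
    refine cR.continuousAt.eventually (lt_mem_nhds ?_)
    simp only
    rw [Rt_zero]
    have := lowS_nonneg c M hτ.1 hτ.2
    linarith
  have A3 : ∀ᶠ v in nhds (0 : ℝ), ∀ τ ∈ Set.Icc (1 / 2 : ℝ) 1,
      |Rt c M j τ v| ^ 16 * 144 ^ (c + M) < 1 := by
    apply hK2.eventually_forall_of_forall_eventually
    intro τ hτ
    have cR' : Continuous (fun z : ℝ × ℝ => |Rt c M j z.2 z.1| ^ 16 * 144 ^ (c + M)) := by
      fun_prop
    refine cR'.continuousAt.eventually (gt_mem_nhds ?_)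
    simp only
    rw [Rt_zero, abs_of_nonneg (lowS_nonneg c M (by linarith [hτ.1]) hτ.2)]
    refine lt_of_le_of_lt ?_ hsmall
    have := lowS_le c M hτ.1 hτ.2
    have h0 := lowS_nonneg c M (τ := τ) (by linarith [hτ.1]) hτ.2
    gcongr
  have A4 : ∀ᶠ v in nhds (0 : ℝ), ∀ m ∈ range (c + M + 1), (1 + v) ^ (j m) < 2 := by
    rw [Filter.eventually_all_finset]
    intro m hm
    have : Continuous (fun v : ℝ => (1 + v) ^ (j m)) := by fun_prop
    refine this.continuousAt.eventually (gt_mem_nhds ?_)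
    simp
  have A5 : ∀ᶠ v in nhds (0 : ℝ), v < 1 := gt_mem_nhds one_pos
  obtain ⟨ε, hε, hb⟩ := Metric.eventually_nhds_iff.1 (A1.and (A2.and (A3.and (A4.and A5))))
  refine ⟨min (ε / 2) 1, by positivity, min_le_right _ _, ?_⟩
  intro v hv0 hv
  have hd : dist v 0 < ε := by
    rw [Real.dist_eq, sub_zero, abs_of_nonneg hv0]
    have := le_trans hv (min_le_left _ _)
    linarith
  obtain ⟨B1, B2, B3, B4, B5⟩ := hb hd
  refine ⟨?_, ?_, ?_⟩
  · intro τ hτ
    have hg := Rt_growth c M j 2 hτ hv0 (fun m hm => (B4 m (by simp; omega)).le)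
    calc _ ≤ _ := hg
      _ ≤ 2 ^ (c + M) * (1 + 2 * τ) ^ (c + M) := by
        have h1 : (1 : ℝ) ≤ (1 + 2 * τ) ^ (c + M) := one_le_pow₀ (by linarith)
        have h2 : (4 : ℝ) ≤ 2 ^ (c + M) := by
          calc (4 : ℝ) = 2 ^ 2 := by norm_num
            _ ≤ _ := pow_le_pow_right₀ (by norm_num) hN
        nlinarith
      _ = (2 * (1 + 2 * τ)) ^ (c + M) := by rw [mul_pow]
      _ ≤ _ := by
        apply pow_le_pow_left₀ (by positivity)
        linarith
  · intro τ h0 h1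
    rw [abs_le]
    refine ⟨(B2 τ ⟨h0, h1⟩).le, ?_⟩
    have := B1 τ ⟨h0, h1⟩
    unfold Rt
    have : 0 ≤ τ ^ c * W c M j τ v := by positivity
    linarith
  · intro τ h0 h1
    exact (B3 τ ⟨h0, h1⟩).le


open MvPolynomial in
noncomputable def Rp (c M : ℕ) (i j : ℕ → ℕ) (s : ℝ) : MvPolynomial (Fin 2) ℝ :=
  1 - ∑ k ∈ range (M + 1), ∑ l ∈ range (M - k + 1),
    C (cf c M k l * s ^ (c + k + l)) * (X 0 ^ (i (c + k + l)) * X 1 ^ (j (c + k + l)))

open MvPolynomial in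
lemma eval_Rp (c M : ℕ) (i j : ℕ → ℕ) (a b : ℕ) (hij : ∀ m, c ≤ m → i m * b + j m * a = m)
    (s t v : ℝ) :
    eval ![t ^ b, t ^ a * (1 + v)] (Rp c M i j s) = Rt c M j (s * t) v := by
  unfold Rp Rt W
  simp only [map_sub, map_one, map_sum, map_mul, map_pow, eval_C, eval_X, Matrix.cons_val_zero,
    Matrix.cons_val_one]
  congr 1
  rw [Finset.mul_sum]
  apply Finset.sum_congr rfl
  intro k hk
  rw [Finset.mul_sum]
  apply Finset.sum_congr rfl
  intro l hl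
  have h := hij (c + k + l) (by omega)
  have h2 : t ^ (c + k + l) = (t ^ b) ^ (i (c + k + l)) * (t ^ a) ^ (j (c + k + l)) := by
    rw [← pow_mul, ← pow_mul, ← pow_add]
    congr 1
    rw [mul_comm b, mul_comm a]
    exact h.symm
  calc cf c M k l * s ^ (c + k + l) * ((t ^ b) ^ (i (c + k + l)) * (t ^ a * (1 + v)) ^ (j (c + k + l)))
      = cf c M k l * s ^ (c + k + l) * ((t ^ b) ^ (i (c + k + l)) * (t ^ a) ^ (j (c + k + l))) * (1 + v) ^ (j (c + k + l)) := by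
        rw [mul_pow]; ring
    _ = cf c M k l * s ^ (c + k + l) * t ^ (c + k + l) * (1 + v) ^ (j (c + k + l)) := by rw [← h2]
    _ = _ := by
        rw [mul_pow, mul_pow]
        ring

open MvPolynomial in
lemma deg_Rp (c M : ℕ) (i j : ℕ → ℕ) (s : ℝ) (D : ℕ) (hD : ∀ m ≤ c + M, i m + j m ≤ D) :
    (Rp c M i j s).totalDegree ≤ D := by
  unfold Rp
  refine le_trans (totalDegree_sub _ _) ?_
  rw [totalDegree_one]
  apply max_le (Nat.zero_le _)
  apply totalDegree_finsetSum_le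
  intro k hk
  apply totalDegree_finsetSum_le
  intro l hl
  rw [mem_range] at hk hl
  refine le_trans (totalDegree_mul _ _) ?_
  rw [totalDegree_C, zero_add]
  refine le_trans (totalDegree_mul _ _) ?_
  rw [totalDegree_X_pow, totalDegree_X_pow]
  exact hD _ (by omega)

noncomputable def PP (c M : ℕ) (i j : ℕ → ℕ) : ℕ → ℝ → MvPolynomial (Fin 2) ℝ
  | 0, s => Rp c M i j s
  | K + 1, s => (Rp c M i j s) ^ (16 ^ (K + 1)) * PP c M i j K (2 * s)

open MvPolynomial in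
lemma eval_PP (c M : ℕ) (i j : ℕ → ℕ) (a b : ℕ) (hij : ∀ m, c ≤ m → i m * b + j m * a = m)
    (t v : ℝ) : ∀ (K : ℕ) (s : ℝ),
    eval ![t ^ b, t ^ a * (1 + v)] (PP c M i j K s) = QQ c M j v K (s * t) := by
  intro K
  induction K with
  | zero => intro s; exact eval_Rp c M i j a b hij s t v
  | succ K ih =>
    intro s
    rw [PP, QQ, map_mul, map_pow, eval_Rp c M i j a b hij s t v, ih (2 * s), mul_assoc]

lemma deg_PP (c M : ℕ) (i j : ℕ → ℕ) (D : ℕ) (hD : ∀ m ≤ c + M, i m + j m ≤ D) :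
    ∀ (K : ℕ) (s : ℝ), (PP c M i j K s).totalDegree ≤ 2 * D * 16 ^ K := by
  intro K
  induction K with
  | zero => intro s; exact le_trans (deg_Rp c M i j s D hD) (by simp; omega)
  | succ K ih =>
    intro s
    rw [PP]
    refine le_trans (MvPolynomial.totalDegree_mul _ _) ?_
    have h1 := MvPolynomial.totalDegree_pow (Rp c M i j s) (16 ^ (K + 1))
    have h2 := deg_Rp c M i j s D hD
    have h3 := ih (2 * s)
    have h4 : 16 ^ (K + 1) * (Rp c M i j s).totalDegree ≤ 16 ^ (K + 1) * D := Nat.mul_le_mul_left _ h2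
    have h5 : 16 ^ (K + 1) * D + 2 * D * 16 ^ K ≤ 2 * D * 16 ^ (K + 1) := by
      rw [pow_succ]
      nlinarith [Nat.zero_le (D * 16 ^ K)]
    omega

lemma QQ_zero (c M : ℕ) (hc : 1 ≤ c) (j : ℕ → ℕ) (v : ℝ) : ∀ K, QQ c M j v K 0 = 1 := by
  intro K
  induction K with
  | zero => simp [QQ, Rt, zero_pow (show c ≠ 0 by omega)]
  | succ K ih => rw [QQ, mul_zero, ih]; simp [Rt, zero_pow (show c ≠ 0 by omega)]

lemma cusp_param (a b p : ℕ) (hb : 1 ≤ b) (h1 : b < a) (h2 : a < p * b) (z : ℝ × ℝ)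
    (hz : z ∈ cusp ((a : ℝ) / b) p) :
    ∃ t v : ℝ, 0 ≤ t ∧ t ≤ 1 ∧ 0 ≤ v ∧ v ≤ t ∧ z.1 = t ^ b ∧ z.2 = t ^ a * (1 + v) := by
  obtain ⟨hx0, hx1, hy0, hy1⟩ := hz
  have hbR : (b : ℝ) ≠ 0 := by positivity
  set t : ℝ := z.1 ^ ((1 : ℝ) / b) with ht
  have ht0 : 0 ≤ t := Real.rpow_nonneg hx0 _
  have htb : t ^ b = z.1 := by
    rw [ht, ← Real.rpow_natCast, ← Real.rpow_mul hx0]
    rw [one_div, inv_mul_cancel₀ hbR, Real.rpow_one]
  have hta : t ^ a = z.1 ^ ((a : ℝ) / b) := by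
    rw [ht, ← Real.rpow_natCast, ← Real.rpow_mul hx0]
    congr 1
    ring
  have ht1 : t ≤ 1 := Real.rpow_le_one hx0 hx1 (by positivity)
  rw [← hta] at hy0 hy1
  rw [← htb] at hy1
  rcases eq_or_lt_of_le ht0 with h | h
  · refine ⟨0, 0, le_rfl, zero_le_one, le_rfl, le_rfl, ?_, ?_⟩
    · rw [← htb, ← h]
    · rw [← h] at hy0 hy1
      have ha : a ≠ 0 := by omega
      have hb' : b ≠ 0 := by omega
      have hp : p ≠ 0 := by rintro rfl; omega
      rw [zero_pow ha] at hy0 hy1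
      rw [zero_pow hb', zero_pow hp] at hy1
      rw [zero_pow ha]
      linarith
  · have hta0 : 0 < t ^ a := by positivity
    refine ⟨t, z.2 / t ^ a - 1, ht0, ht1, ?_, ?_, htb.symm, ?_⟩
    · have : 1 ≤ z.2 / t ^ a := by rw [le_div_iff₀ hta0]; linarith
      linarith
    · have h3 : z.2 / t ^ a ≤ 1 + t := by
        rw [div_le_iff₀ hta0]
        calc z.2 ≤ t ^ a + (t ^ b) ^ p := hy1
          _ ≤ t ^ a + t ^ (a + 1) := by
            rw [← pow_mul]
            have : t ^ (b * p) ≤ t ^ (a + 1) := pow_le_pow_of_le_one ht0 ht1 (by rw [mul_comm]; omega)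
            linarith
          _ = _ := by ring
      linarith
    · field_simp
      ring

lemma rational_case (a b p : ℕ) (hab : Nat.Coprime a b) (hb : 1 ≤ b) (h1 : b < a)
    (h2 : a < p * b) :
    ∃ D0 : ℕ, ∀ K : ℕ, ∃ P : MvPolynomial (Fin 2) ℝ, P.totalDegree ≤ D0 * 16 ^ K ∧
      (∀ z ∈ cusp ((a : ℝ) / b) p, |evalAt P z| ≤ 1) ∧ evalAt P (0, 0) = 1 ∧
      evalAt P ((1 / 2 ^ K) ^ b, (1 / 2 ^ K) ^ a) = 0 := by
  set c := a * b with hc
  have hc1 : 1 ≤ c := by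
    rw [hc]; exact Nat.mul_pos (by omega) (by omega)
  have hex : ∀ m : ℕ, ∃ ij : ℕ × ℕ, c ≤ m → ij.1 * b + ij.2 * a = m := by
    intro m
    by_cases hm : c ≤ m
    · have hle : b.pred * a.pred ≤ m := by
        refine le_trans ?_ hm
        rw [hc, mul_comm a b]
        exact Nat.mul_le_mul (Nat.pred_le _) (Nat.pred_le _)
      obtain ⟨x, y, hxy⟩ := Nat.exists_add_mul_eq_of_gcd_dvd_of_mul_pred_le b a m
        (by rw [Nat.gcd_comm, hab]; exact one_dvd _) hle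
      exact ⟨(x, y), fun _ => hxy⟩
    · exact ⟨(0, 0), fun h => absurd h hm⟩
  choose ij hij using hex
  set i : ℕ → ℕ := fun m => (ij m).1 with hi
  set j : ℕ → ℕ := fun m => (ij m).2 with hj
  have hij' : ∀ m, c ≤ m → i m * b + j m * a = m := hij
  obtain ⟨M, hM, hN, hsmall⟩ := exists_M c
  obtain ⟨δ, hδ0, hδ1, hδ⟩ := exists_delta c M j hN hsmall
  set J : ℕ := ∑ m ∈ range (c + M + 1), j m with hJ
  set D : ℕ := ∑ m ∈ range (c + M + 1), (i m + j m) with hDdef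
  have hD : ∀ m ≤ c + M, i m + j m ≤ D := by
    intro m hm
    exact Finset.single_le_sum (f := fun m => i m + j m) (fun _ _ => Nat.zero_le _) (by simp; omega)
  have hJ' : ∀ m ≤ c + M, j m ≤ J := by
    intro m hm
    exact Finset.single_le_sum (f := fun m => j m) (fun _ _ => Nat.zero_le _) (by simp; omega)
  set E : ℝ := 2 ^ (J + 2) with hE
  have hE2 : 2 ≤ E := by
    rw [hE, pow_add]
    have : (1 : ℝ) ≤ 2 ^ J := one_le_pow₀ (by norm_num)
    nlinarith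
  have hgrow : ∀ v, 0 ≤ v → v ≤ 1 → ∀ τ, 0 ≤ τ → |Rt c M j τ v| ≤ (E * (1 + τ)) ^ (c + M) := by
    intro v hv0 hv1 τ hτ
    have hg := Rt_growth c M j (2 ^ J) hτ hv0 (fun m hm => by
      calc (1 + v) ^ (j m) ≤ 2 ^ (j m) := by gcongr; linarith
        _ ≤ 2 ^ J := pow_le_pow_right₀ (by norm_num) (hJ' m hm))
    calc _ ≤ _ := hg
      _ ≤ 2 ^ (J + 1) * (1 + 2 * τ) ^ (c + M) := by
        have h3 : (1 : ℝ) ≤ (1 + 2 * τ) ^ (c + M) := one_le_pow₀ (by linarith)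
        have h4 : (1 : ℝ) ≤ 2 ^ J := one_le_pow₀ (by norm_num)
        rw [pow_succ]
        nlinarith
      _ ≤ 2 ^ (J + 1) * (2 * (1 + τ)) ^ (c + M) := by
        gcongr
        linarith
      _ = 2 ^ (J + 1 + (c + M)) * (1 + τ) ^ (c + M) := by
        rw [mul_pow, pow_add]; ring
      _ ≤ 2 ^ ((J + 2) * (c + M)) * (1 + τ) ^ (c + M) := by
        gcongr
        · norm_num
        · nlinarith [Nat.zero_le J]
      _ = _ := by rw [mul_pow, hE, ← pow_mul]
  have hq0 : 0 ≤ 1 - δ ^ b := by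
    have : δ ^ b ≤ 1 := pow_le_one₀ hδ0.le hδ1
    linarith
  have hq1 : 1 - δ ^ b < 1 := by
    have : 0 < δ ^ b := by positivity
    linarith
  have hEE : (0 : ℝ) < (2 * E) ^ (2 * (c + M)) := by positivity
  obtain ⟨A, hA⟩ := exists_pow_lt_of_lt_one (show (0 : ℝ) < 1 / (2 * E) ^ (2 * (c + M)) by positivity) hq1
  refine ⟨A + 2 * D, ?_⟩
  intro K
  refine ⟨(1 - MvPolynomial.X 0) ^ (A * 16 ^ K) * PP c M i j K 1, ?_, ?_, ?_, ?_⟩
  · refine le_trans (MvPolynomial.totalDegree_mul _ _) ?_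
    have e1 := MvPolynomial.totalDegree_pow (1 - MvPolynomial.X 0 : MvPolynomial (Fin 2) ℝ) (A * 16 ^ K)
    have e2 : (1 - MvPolynomial.X 0 : MvPolynomial (Fin 2) ℝ).totalDegree ≤ 1 := by
      refine le_trans (MvPolynomial.totalDegree_sub _ _) ?_
      simp
    have e3 := deg_PP c M i j D hD K 1
    have e4 : A * 16 ^ K * (1 - MvPolynomial.X 0 : MvPolynomial (Fin 2) ℝ).totalDegree ≤ A * 16 ^ K * 1 :=
      Nat.mul_le_mul_left _ e2
    nlinarith
  · intro z hz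
    obtain ⟨t, v, ht0, ht1, hv0, hvt, hz1, hz2⟩ := cusp_param a b p hb h1 h2 z hz
    rw [evalAt, hz1, hz2, map_mul, map_pow, eval_PP c M i j a b hij', one_mul]
    simp only [map_sub, map_one, MvPolynomial.eval_X, Matrix.cons_val_zero]
    rw [abs_mul, abs_pow]
    have htb1 : t ^ b ≤ 1 := pow_le_one₀ ht0 ht1
    have htb0 : 0 ≤ t ^ b := by positivity
    rw [abs_of_nonneg (by linarith : 0 ≤ 1 - t ^ b)]
    rcases le_total t δ with h | h
    · obtain ⟨g1, g2, g3⟩ := hδ v hv0 (by linarith)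
      have e1 := QQ_le_one c M j v (c + M) g1 g2 g3 K t ht0 ht1
      have e2 : (1 - t ^ b) ^ (A * 16 ^ K) ≤ 1 := pow_le_one₀ (by linarith) (by linarith)
      calc _ ≤ (1 : ℝ) * 1 := by gcongr
        _ = 1 := by ring
    · have e1 := QQ_growth c M j v E hE2 (c + M) (hgrow v hv0 (by linarith)) K t ht0
      have e2 : δ ^ b ≤ t ^ b := by gcongr
      have e3 : |QQ c M j v K t| ≤ (2 * E) ^ (2 * (c + M) * 16 ^ K) := by
        refine le_trans e1 ?_
        apply pow_le_pow_left₀ (by positivity)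
        nlinarith
      have e4 : (1 - t ^ b) ^ (A * 16 ^ K) ≤ (1 - δ ^ b) ^ (A * 16 ^ K) :=
        pow_le_pow_left₀ (by linarith) (by linarith) _
      calc (1 - t ^ b) ^ (A * 16 ^ K) * |QQ c M j v K t|
          ≤ (1 - δ ^ b) ^ (A * 16 ^ K) * (2 * E) ^ (2 * (c + M) * 16 ^ K) := by
            apply mul_le_mul e4 e3 (abs_nonneg _) (by positivity)
        _ = ((1 - δ ^ b) ^ A * (2 * E) ^ (2 * (c + M))) ^ (16 ^ K) := by
            rw [mul_pow ((1 - δ ^ b) ^ A), ← pow_mul (1 - δ ^ b), ← pow_mul (2 * E)]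
        _ ≤ 1 := by
            apply pow_le_one₀ (by positivity)
            calc _ ≤ 1 / (2 * E) ^ (2 * (c + M)) * (2 * E) ^ (2 * (c + M)) := by gcongr
              _ = 1 := by field_simp
  · have e := eval_PP c M i j a b hij' 0 0 K 1
    have ha : a ≠ 0 := by omega
    have hb' : b ≠ 0 := by omega
    rw [zero_pow ha, zero_pow hb', mul_zero, QQ_zero c M hc1, zero_mul] at e
    rw [evalAt, map_mul, e]
    simp
  · have e := eval_PP c M i j a b hij' (1 / 2 ^ K) 0 K 1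
    rw [add_zero, mul_one, one_mul, QQ_end c M j hM] at e
    rw [evalAt, map_mul, e, mul_zero]

lemma chain_rule (P : MvPolynomial (Fin 2) ℝ) (u w : ℝ → ℝ) (u' w' t : ℝ)
    (hu : HasDerivAt u u' t) (hw : HasDerivAt w w' t) :
    HasDerivAt (fun s => evalAt P (u s, w s))
      (evalAt (MvPolynomial.pderiv 0 P) (u t, w t) * u' +
        evalAt (MvPolynomial.pderiv 1 P) (u t, w t) * w') t := by
  unfold evalAt
  induction P using MvPolynomial.induction_on with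
  | C a =>
    simp only [MvPolynomial.eval_C, MvPolynomial.pderiv_C, map_zero, zero_mul, add_zero]
    exact hasDerivAt_const t a
  | add p q hp hq =>
    simp only [map_add]
    refine (hp.add hq).congr_deriv ?_
    ring
  | mul_X p n hp =>
    simp only [map_mul, Derivation.leibniz, smul_eq_mul, map_add, MvPolynomial.eval_X]
    fin_cases n
    · refine (hp.mul hu).congr_deriv ?_
      simp [MvPolynomial.pderiv_X]
      ring
    · refine (hp.mul hw).congr_deriv ?_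
      simp [MvPolynomial.pderiv_X]
      ring

lemma grad_large (P : MvPolynomial (Fin 2) ℝ) (a b : ℕ) (hb : 1 ≤ b) (hab : b < a) (T : ℝ)
    (hT : 0 < T) (hT1 : T ≤ 1) (h0 : evalAt P (0, 0) = 1) (h1 : evalAt P (T ^ b, T ^ a) = 0) :
    ∃ t : ℝ, 0 < t ∧ t < T ∧ 1 ≤ gradNorm P (t ^ b, t ^ a) * ((a + b) * T ^ b) := by
  have hd : ∀ t : ℝ, HasDerivAt (fun s => evalAt P (s ^ b, s ^ a))
      (evalAt (MvPolynomial.pderiv 0 P) (t ^ b, t ^ a) * (b * t ^ (b - 1)) +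
        evalAt (MvPolynomial.pderiv 1 P) (t ^ b, t ^ a) * (a * t ^ (a - 1))) t := fun t =>
    chain_rule P (fun s => s ^ b) (fun s => s ^ a) _ _ t (hasDerivAt_pow b t) (hasDerivAt_pow a t)
  obtain ⟨t, ht, hslope⟩ := exists_hasDerivAt_eq_slope (fun s => evalAt P (s ^ b, s ^ a)) _ hT
    (fun x _ => (hd x).continuousAt.continuousWithinAt) (fun x _ => hd x)
  refine ⟨t, ht.1, ht.2, ?_⟩
  have hb' : b ≠ 0 := by omega
  have ha' : a ≠ 0 := by omega
  simp only [zero_pow hb', zero_pow ha', h0, h1] at hslope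
  set g := gradNorm P (t ^ b, t ^ a) with hg
  set px := evalAt (MvPolynomial.pderiv 0 P) (t ^ b, t ^ a) with hpx
  set py := evalAt (MvPolynomial.pderiv 1 P) (t ^ b, t ^ a) with hpy
  have hgx : |px| ≤ g := by
    rw [hg, gradNorm, ← hpx, ← hpy]
    apply Real.abs_le_sqrt
    nlinarith [sq_nonneg py]
  have hgy : |py| ≤ g := by
    rw [hg, gradNorm, ← hpx, ← hpy]
    apply Real.abs_le_sqrt
    nlinarith [sq_nonneg px]
  have hg0 : 0 ≤ g := le_trans (abs_nonneg _) hgx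
  have ht0 : 0 < t := ht.1
  have htb : t ^ (b - 1) ≤ T ^ (b - 1) := by
    have := ht.2.le
    gcongr
  have hta : t ^ (a - 1) ≤ T ^ (b - 1) := by
    calc t ^ (a - 1) ≤ t ^ (b - 1) :=
          pow_le_pow_of_le_one ht0.le (by linarith [ht.2]) (by omega)
      _ ≤ _ := htb
  have h3 : 1 / T = |px * (b * t ^ (b - 1)) + py * (a * t ^ (a - 1))| := by
    rw [hslope, sub_zero, zero_sub, abs_div, abs_neg, abs_one, abs_of_pos hT]
  have h4 : |px * (b * t ^ (b - 1)) + py * (a * t ^ (a - 1))| ≤ g * (b * T ^ (b - 1)) + g * (a * T ^ (b - 1)) := by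
    refine le_trans (abs_add_le _ _) ?_
    rw [abs_mul px, abs_mul py, abs_of_nonneg (by positivity : (0 : ℝ) ≤ b * t ^ (b - 1)),
      abs_of_nonneg (by positivity : (0 : ℝ) ≤ a * t ^ (a - 1))]
    gcongr
  have h5 : 1 / T ≤ g * ((a + b) * T ^ (b - 1)) := by
    rw [h3]; refine le_trans h4 (le_of_eq ?_); ring
  have h6 : T ^ b = T ^ (b - 1) * T := by
    rw [← pow_succ]; congr 1; omega
  calc (1 : ℝ) = 1 / T * T := by field_simp
    _ ≤ g * ((a + b) * T ^ (b - 1)) * T := by gcongr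
    _ = _ := by rw [h6]; ring

def Bad (p n : ℕ) (σ : ℝ) : Prop :=
  ∃ P : MvPolynomial (Fin 2) ℝ, 1 ≤ P.totalDegree ∧ ∃ z ∈ cusp σ p, ∃ B : ℝ, 0 < B ∧
    (∀ w ∈ cusp σ p, |evalAt P w| < B) ∧ n * (P.totalDegree : ℝ) ^ n * B < gradNorm P z

lemma bad_of_rat (a b p n : ℕ) (hab : Nat.Coprime a b) (hb : 4 * n + 1 ≤ b) (h1 : b < a)
    (h2 : a < p * b) : Bad p n ((a : ℝ) / b) := by
  obtain ⟨D0, hD0⟩ := rational_case a b p hab (by omega) h1 h2
  obtain ⟨K, hK⟩ := pow_unbounded_of_one_lt ((n : ℝ) * (D0 : ℝ) ^ n * 2 * (a + b)) (one_lt_two)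
  obtain ⟨P, hdeg, hle, h0, hT⟩ := hD0 K
  have hT0 : (0 : ℝ) < 1 / 2 ^ K := by positivity
  have hT1 : (1 : ℝ) / 2 ^ K ≤ 1 := by
    rw [div_le_one (by positivity)]
    exact one_le_pow₀ (by norm_num)
  obtain ⟨t, ht0, htT, hg⟩ := grad_large P a b (by omega) h1 (1 / 2 ^ K) hT0 hT1 h0 hT
  have hb0 : (0 : ℝ) < b := by
    have : 0 < b := by omega
    exact_mod_cast this
  refine ⟨P, ?_, (t ^ b, t ^ a), ?_, 2, by norm_num, ?_, ?_⟩
  · by_contra h
    have h3 : P.totalDegree = 0 := by omega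
    rw [MvPolynomial.totalDegree_eq_zero_iff_eq_C] at h3
    rw [h3] at h0 hT
    simp only [evalAt, MvPolynomial.eval_C] at h0 hT
    rw [h0] at hT
    exact one_ne_zero hT
  · have e : (t ^ b : ℝ) ^ ((a : ℝ) / b) = t ^ a := by
      rw [← Real.rpow_natCast, ← Real.rpow_mul ht0.le, mul_div_cancel₀ _ hb0.ne', Real.rpow_natCast]
    have h3 : t ≤ 1 := by linarith
    refine ⟨by positivity, pow_le_one₀ ht0.le h3, ?_, ?_⟩
    · simp only [e]; exact le_rfl
    · simp only [e]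
      have : 0 ≤ (t ^ b) ^ p := by positivity
      linarith
  · intro w hw
    have := hle w hw
    linarith
  · set g := gradNorm P (t ^ b, t ^ a) with hgdef
    have h3 : (P.totalDegree : ℝ) ^ n ≤ (D0 : ℝ) ^ n * 2 ^ (4 * n * K) := by
      have : (P.totalDegree : ℝ) ≤ (D0 : ℝ) * 16 ^ K := by exact_mod_cast hdeg
      calc _ ≤ ((D0 : ℝ) * 16 ^ K) ^ n := by gcongr
        _ = _ := by
          rw [mul_pow, show (16 : ℝ) = 2 ^ 4 by norm_num, ← pow_mul, ← pow_mul]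
          congr 2
          ring
    have h4 : (2 : ℝ) ^ (b * K) ≤ g * (a + b) := by
      have e : ((1 : ℝ) / 2 ^ K) ^ b = 1 / 2 ^ (b * K) := by
        rw [div_pow, one_pow, ← pow_mul, mul_comm]
      rw [e] at hg
      have h5 : (0 : ℝ) < 2 ^ (b * K) := by positivity
      calc (2 : ℝ) ^ (b * K) = 1 * 2 ^ (b * K) := by ring
        _ ≤ (g * ((a + b) * (1 / 2 ^ (b * K)))) * 2 ^ (b * K) := by gcongr
        _ = _ := by field_simp
    have h5 : (2 : ℝ) ^ (4 * n * K) * 2 ^ K ≤ 2 ^ (b * K) := by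
      rw [← pow_add]
      apply pow_le_pow_right₀ (by norm_num)
      nlinarith
    have ha0 : (0 : ℝ) < a + b := by positivity
    have h6 : (n : ℝ) * (P.totalDegree : ℝ) ^ n * 2 * (a + b) < g * (a + b) := by
      calc (n : ℝ) * (P.totalDegree : ℝ) ^ n * 2 * (a + b)
          ≤ (n : ℝ) * ((D0 : ℝ) ^ n * 2 ^ (4 * n * K)) * 2 * (a + b) := by gcongr
        _ = (n : ℝ) * (D0 : ℝ) ^ n * 2 * (a + b) * 2 ^ (4 * n * K) := by ring
        _ < 2 ^ K * 2 ^ (4 * n * K) := by gcongr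
        _ ≤ g * (a + b) := by
          rw [mul_comm]; exact le_trans h5 h4
    exact lt_of_mul_lt_mul_right h6 ha0.le

/-- parametrisation of the cusp -/
noncomputable def F (p : ℕ) (σ : ℝ) (q : ℝ × ℝ) : ℝ × ℝ := (q.1, q.1 ^ σ + q.2 * q.1 ^ p)

lemma F_mem (p : ℕ) (σ : ℝ) (q : ℝ × ℝ) (hq : q ∈ Set.Icc (0 : ℝ) 1 ×ˢ Set.Icc (0 : ℝ) 1) :
    F p σ q ∈ cusp σ p := by
  obtain ⟨⟨h1, h2⟩, h3, h4⟩ := hq
  have h5 : 0 ≤ q.1 ^ p := by positivity
  refine ⟨h1, h2, ?_, ?_⟩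
  · simp only [F]
    nlinarith [mul_nonneg h3 h5]
  · simp only [F]
    nlinarith [mul_nonneg (sub_nonneg.2 h4) h5]

lemma exists_F (p : ℕ) (hp : p ≠ 0) (σ : ℝ) (hσ : 0 < σ) (z : ℝ × ℝ) (hz : z ∈ cusp σ p) :
    ∃ q ∈ Set.Icc (0 : ℝ) 1 ×ˢ Set.Icc (0 : ℝ) 1, F p σ q = z := by
  obtain ⟨h1, h2, h3, h4⟩ := hz
  rcases eq_or_lt_of_le h1 with h | h
  · refine ⟨(0, 0), by simp, ?_⟩
    rw [← h, zero_pow hp, Real.zero_rpow hσ.ne'] at h4
    rw [← h, Real.zero_rpow hσ.ne'] at h3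
    ext
    · simp [F, ← h]
    · simp [F, Real.zero_rpow hσ.ne']
      linarith
  · have h5 : 0 < z.1 ^ p := by positivity
    refine ⟨(z.1, (z.2 - z.1 ^ σ) / z.1 ^ p), ⟨⟨h1, h2⟩, ?_, ?_⟩, ?_⟩
    · simp only
      apply div_nonneg _ h5.le
      linarith
    · simp only
      rw [div_le_one h5]
      linarith
    · ext
      · simp [F]
      · simp only [F]
        field_simp
        ring

lemma F_cont (p : ℕ) (σ : ℝ) (hσ : 0 < σ) (q : ℝ × ℝ) :
    ContinuousAt (fun y : ℝ × (ℝ × ℝ) => F p y.1 y.2) (σ, q) := by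
  unfold F
  have h1 : ContinuousAt (fun y : ℝ × (ℝ × ℝ) => y.2.1 ^ y.1) (σ, q) := by
    have := Real.continuousAt_rpow_of_pos (q.1, σ) hσ
    exact ContinuousAt.comp (f := fun y : ℝ × (ℝ × ℝ) => (y.2.1, y.1)) (g := fun p : ℝ × ℝ => p.1 ^ p.2)
      this (by fun_prop)
  have h2 : ContinuousAt (fun y : ℝ × (ℝ × ℝ) => y.2.1) (σ, q) := by fun_prop
  have h3 : ContinuousAt (fun y : ℝ × (ℝ × ℝ) => y.2.2 * y.2.1 ^ p) (σ, q) := by fun_prop
  exact h2.prodMk (h1.add h3)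

lemma evalAt_cont (P : MvPolynomial (Fin 2) ℝ) : Continuous (evalAt P) := by
  unfold evalAt
  have h1 : Continuous (fun v : Fin 2 → ℝ => MvPolynomial.eval v P) := MvPolynomial.continuous_eval P
  have h2 : Continuous (fun z : ℝ × ℝ => (![z.1, z.2] : Fin 2 → ℝ)) := by
    apply continuous_pi
    intro i
    fin_cases i
    · simp; exact continuous_fst
    · simp; exact continuous_snd
  exact h1.comp h2

lemma gradNorm_cont (P : MvPolynomial (Fin 2) ℝ) : Continuous (gradNorm P) := by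
  unfold gradNorm
  have h1 := evalAt_cont (MvPolynomial.pderiv 0 P)
  have h2 := evalAt_cont (MvPolynomial.pderiv 1 P)
  fun_prop

lemma cusp_compact (p : ℕ) (hp : p ≠ 0) (σ : ℝ) (hσ : 0 < σ) : IsCompact (cusp σ p) := by
  have h : cusp σ p = (F p σ) '' (Set.Icc (0 : ℝ) 1 ×ˢ Set.Icc (0 : ℝ) 1) := by
    ext z
    constructor
    · intro hz
      obtain ⟨q, hq, e⟩ := exists_F p hp σ hσ z hz
      exact ⟨q, hq, e⟩
    · rintro ⟨q, hq, rfl⟩
      exact F_mem p σ q hq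
  rw [h]
  apply (isCompact_Icc.prod isCompact_Icc).image
  rw [continuous_iff_continuousAt]
  intro q
  exact ContinuousAt.comp (f := fun q : ℝ × ℝ => (σ, q)) (g := fun y : ℝ × (ℝ × ℝ) => F p y.1 y.2)
    (F_cont p σ hσ q) (by fun_prop)

lemma bad_open (p n : ℕ) (hp : p ≠ 0) (σ₀ : ℝ) (hσ : 0 < σ₀) (h : Bad p n σ₀) :
    ∀ᶠ σ in nhds σ₀, Bad p n σ := by
  obtain ⟨P, hdeg, z, hz, B, hB, hle, hgt⟩ := h
  obtain ⟨q, hq, e⟩ := exists_F p hp σ₀ hσ z hz
  have h1 : ∀ᶠ σ in nhds σ₀, ∀ q ∈ Set.Icc (0 : ℝ) 1 ×ˢ Set.Icc (0 : ℝ) 1, |evalAt P (F p σ q)| < B := by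
    apply (isCompact_Icc.prod isCompact_Icc).eventually_forall_of_forall_eventually
    intro q hq
    have hc : ContinuousAt (fun y : ℝ × (ℝ × ℝ) => |evalAt P (F p y.1 y.2)|) (σ₀, q) := by
      apply ContinuousAt.abs
      exact ContinuousAt.comp (f := fun y : ℝ × (ℝ × ℝ) => F p y.1 y.2) (g := evalAt P)
        (evalAt_cont P).continuousAt (F_cont p σ₀ hσ q)
    exact hc.eventually (gt_mem_nhds (hle _ (F_mem p σ₀ q hq)))
  have h2 : ∀ᶠ σ in nhds σ₀, n * (P.totalDegree : ℝ) ^ n * B < gradNorm P (F p σ q) := by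
    have hc : ContinuousAt (fun σ : ℝ => gradNorm P (F p σ q)) σ₀ := by
      refine ContinuousAt.comp (f := fun σ : ℝ => F p σ q) (g := gradNorm P)
        (gradNorm_cont P).continuousAt ?_
      exact ContinuousAt.comp (f := fun σ : ℝ => (σ, q)) (g := fun y : ℝ × (ℝ × ℝ) => F p y.1 y.2)
        (F_cont p σ₀ hσ q) (by fun_prop)
    refine hc.eventually (lt_mem_nhds ?_)
    simp only
    rw [e]; exact hgt
  filter_upwards [h1, h2, lt_mem_nhds hσ] with σ g1 g2 g3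
  refine ⟨P, hdeg, F p σ q, F_mem p σ q hq, B, hB, ?_, g2⟩
  intro w hw
  obtain ⟨q', hq', e'⟩ := exists_F p hp σ g3 w hw
  rw [← e']
  exact g1 q' hq'

lemma exists_bad_near (p n : ℕ) (u v : ℝ) (huv : u < v) (hu : 1 ≤ u) (hv : v ≤ p) :
    ∃ σ : ℝ, u < σ ∧ σ < v ∧ Bad p n σ := by
  obtain ⟨τ, hτ, hτu, hτv⟩ := exists_irrational_btwn huv
  have h1 := hτ.eventually_forall_le_dist_cast_rat_of_den_le (4 * n)
  have h2 : ∀ᶠ ε in nhdsWithin (0 : ℝ) (Set.Ioi 0), (∀ r : ℚ, r.den ≤ 4 * n → ε ≤ dist τ r) ∧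
      ε < v - τ ∧ 0 < ε := by
    refine (h1.filter_mono nhdsWithin_le_nhds).and
      (((gt_mem_nhds (by linarith : (0 : ℝ) < v - τ)).filter_mono nhdsWithin_le_nhds).and ?_)
    exact self_mem_nhdsWithin
  obtain ⟨ε, hε1, hε2, hε0⟩ := h2.exists
  obtain ⟨r, hr1, hr2⟩ := exists_rat_btwn (show τ < τ + ε by linarith)
  have hden : 4 * n < r.den := by
    by_contra hcon
    have := hε1 r (by omega)
    rw [Real.dist_eq, abs_of_neg (by linarith)] at this
    linarith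
  have hr0 : 0 < r := by
    have : (0 : ℝ) < r := by linarith
    exact_mod_cast this
  have hnum : 0 < r.num := Rat.num_pos.2 hr0
  obtain ⟨a, ha⟩ := Int.eq_ofNat_of_zero_le hnum.le
  have hrab : (r : ℝ) = (a : ℝ) / (r.den : ℝ) := by
    conv_lhs => rw [← Rat.num_div_den r]
    push_cast
    rw [ha]
    simp
  have hb0 : (0 : ℝ) < r.den := by exact_mod_cast r.den_pos
  refine ⟨(r : ℝ), by linarith, by linarith, ?_⟩
  rw [hrab]
  apply bad_of_rat a r.den p n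
  · have := r.reduced
    rw [ha] at this
    simpa using this
  · omega
  · have h3 : (1 : ℝ) < (a : ℝ) / r.den := by rw [← hrab]; linarith
    rw [lt_div_iff₀ hb0] at h3
    have : (r.den : ℝ) < a := by linarith
    exact_mod_cast this
  · have h3 : (a : ℝ) / r.den < p := by rw [← hrab]; linarith
    rw [div_lt_iff₀ hb0] at h3
    exact_mod_cast h3

lemma residual_bad (p n : ℕ) (hp : p ≠ 0) :
    {σ : ℝ | σ ∈ Set.Ioo (1 : ℝ) p → Bad p n σ} ∈ residual ℝ := by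
  set V : Set ℝ := {σ : ℝ | σ ∈ Set.Ioo (1 : ℝ) p ∧ Bad p n σ} ∪ (Set.Icc (1 : ℝ) p)ᶜ with hV
  have hVo : IsOpen V := by
    apply IsOpen.union
    · rw [isOpen_iff_mem_nhds]
      intro σ hσ
      obtain ⟨⟨h1, h2⟩, h3⟩ := hσ
      filter_upwards [lt_mem_nhds h1, gt_mem_nhds h2, bad_open p n hp σ (by linarith) h3] with x g1 g2 g3
      exact ⟨⟨g1, g2⟩, g3⟩
    · exact isClosed_Icc.isOpen_compl
  have hVd : Dense V := by
    rw [dense_iff_inter_open]
    intro O hO ⟨x, hx⟩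
    by_cases hcase : (O ∩ (Set.Icc (1 : ℝ) p)ᶜ).Nonempty
    · obtain ⟨y, hy1, hy2⟩ := hcase
      exact ⟨y, hy1, Or.inr hy2⟩
    · have hsub : O ⊆ Set.Icc (1 : ℝ) p := by
        intro y hy
        by_contra hcon
        exact hcase ⟨y, hy, hcon⟩
      obtain ⟨ε, hε, hball⟩ := Metric.isOpen_iff.1 hO x hx
      have hx' := hsub hx
      have hmem : ∀ y : ℝ, x < y → y < x + ε → y ∈ O := by
        intro y h1 h2
        apply hball
        rw [Metric.mem_ball, Real.dist_eq, abs_of_pos (by linarith)]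
        linarith
      have hle : x + ε ≤ p := by
        by_contra hcon
        push Not at hcon
        have hxp : x ≤ p := hx'.2
        have := hsub (hmem ((max x p + (x + ε)) / 2) (by
          have := le_max_left x (p : ℝ)
          linarith) (by
          have : max x (p : ℝ) < x + ε := max_lt (by linarith) hcon
          linarith))
        have h3 := this.2
        have h4 := le_max_right x (p : ℝ)
        have h5 : max x (p : ℝ) < x + ε := max_lt (by linarith) hcon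
        linarith
      obtain ⟨σ, h1, h2, h3⟩ := exists_bad_near p n x (x + ε) (by linarith) hx'.1 hle
      refine ⟨σ, hmem σ h1 h2, Or.inl ⟨⟨?_, ?_⟩, h3⟩⟩
      · linarith [hx'.1]
      · linarith
  refine Filter.mem_of_superset (residual_of_dense_open hVo hVd) ?_
  intro σ hσ hIoo
  rcases hσ with h | h
  · exact h.2
  · exact absurd ⟨hIoo.1.le, hIoo.2.le⟩ h

lemma not_markov (p : ℕ) (hp : p ≠ 0) (σ : ℝ) (hσ : 0 < σ) (h : ∀ n : ℕ, Bad p n σ) :
    ¬ MarkovInequality (cusp σ p) := by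
  rintro ⟨C, r, hC, hr, hM⟩
  obtain ⟨n, hn⟩ := exists_nat_ge (max C r)
  obtain ⟨P, hdeg, z, hz, B, hB, hle, hgt⟩ := h n
  have hcomp := cusp_compact p hp σ hσ
  have h1 : gradNorm P z ≤ supOn (cusp σ p) (gradNorm P) := by
    have hbdd : BddAbove ((fun z => |gradNorm P z|) '' (cusp σ p)) :=
      (hcomp.image (gradNorm_cont P).abs).bddAbove
    exact le_trans (le_abs_self _) (le_csSup hbdd ⟨z, hz, rfl⟩)
  have h2 : supOn (cusp σ p) (evalAt P) ≤ B := by
    apply csSup_le (Set.Nonempty.image _ ⟨z, hz⟩)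
    rintro _ ⟨w, hw, rfl⟩
    exact (hle w hw).le
  have h3 := hM P hdeg
  have hd1 : (1 : ℝ) ≤ P.totalDegree := by exact_mod_cast hdeg
  have h4 : (P.totalDegree : ℝ) ^ r ≤ (P.totalDegree : ℝ) ^ n := by
    rw [← Real.rpow_natCast]
    exact Real.rpow_le_rpow_of_exponent_le hd1 (le_trans (le_max_right _ _) hn)
  have h5 : C ≤ n := le_trans (le_max_left _ _) hn
  have h6 : 0 ≤ supOn (cusp σ p) (evalAt P) := by
    apply Real.sSup_nonneg
    rintro _ ⟨w, hw, rfl⟩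
    exact abs_nonneg _
  have h7 : C * (P.totalDegree : ℝ) ^ r * supOn (cusp σ p) (evalAt P) ≤ n * (P.totalDegree : ℝ) ^ n * B := by
    gcongr
  linarith

theorem main (p : ℕ) (hp : 2 ≤ p) :
    {σ : ℝ | σ ∈ Set.Ioo (1 : ℝ) p → Irrational σ ∧ ¬ MarkovInequality (cusp σ p)} ∈ residual ℝ := by
  have h1 : ∀ᶠ σ : ℝ in residual ℝ, ∀ n : ℕ, (σ ∈ Set.Ioo (1 : ℝ) p → Bad p n σ) := by
    rw [eventually_countable_forall]
    intro n
    exact residual_bad p n (by omega)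
  filter_upwards [h1, eventually_residual_irrational] with σ g1 g2 hσ
  exact ⟨g2, not_markov p (by omega) σ (by linarith [hσ.1]) (fun n => g1 n hσ)⟩

theorem result :
    (∃ (σ : ℝ) (p : ℕ), Irrational σ ∧ 1 < σ ∧ σ < p ∧ ¬ MarkovInequality (cusp σ p)) ∧
    (∀ p : ℕ, 2 ≤ p →
      {σ : ℝ | 1 < σ → σ < p → Irrational σ ∧ ¬ MarkovInequality (cusp σ p)} ∈ residual ℝ) := by
  constructor
  · have h := dense_of_mem_residual (main 2 le_rfl)
    rw [dense_iff_inter_open] at h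
    obtain ⟨σ, hσ, hs⟩ := h (Set.Ioo (1 : ℝ) (2 : ℕ)) isOpen_Ioo ⟨3 / 2, by norm_num⟩
    have := hs hσ
    exact ⟨σ, 2, this.1, hσ.1, hσ.2, this.2⟩
  · intro p hp
    refine Filter.mem_of_superset (main p hp) ?_
    intro σ hσ h1 h2
    exact hσ ⟨h1, h2⟩

end Pool.Agent.Results.MP_bd9c87_an.MarkovCuspFails
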